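import Pool.Agent.Lib.DT.FH.Ac
import Pool.Agent.Lib.DT.F4.Honda
import Pool.Agent.Lib.DT.F4.FInt
import Pool.Agent.Lib.DT.F4.Small
import Pool.Agent.Lib.DT.F4.DisV
import Pool.Agent.Lib.DT.F4.Contra

/-!
# Theorem DT, part F: Honda integrality, the conjugate side and the contradiction (`S_FH`)
-/

set_option autoImplicit false

open scoped Pointwise

noncomputable section

namespace Pool.Agent.DT

open Pool.Agent.MuZ Pool.Agent.FW NumberField
open Pool.Agent.DI (io ofC io_inj exists_io io_ofC ofC_io VP MP UP TP ex)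
open _root_.DT.F4 _root_.DI.F4

namespace FHm

variable {k t : ℕ}

/-- `V_P` as a valuation subring -/
def VPv (P : Ideal ZZ) [P.IsPrime] : ValuationSubring Om where
  carrier := {x | VP P x}
  mul_mem' := fun ha hb => DI.VP.mul ha hb
  one_mem' := DI.VP.one
  add_mem' := fun ha hb => DI.VP.add ha hb
  zero_mem' := DI.VP.zero
  neg_mem' := fun ha => DI.VP.neg ha
  mem_or_inv_mem' := fun x => DI.VP.or_vp_inv x

theorem mem_VPv {P : Ideal ZZ} [P.IsPrime] {x : Om} : x ∈ VPv P ↔ VP P x := Iff.rfl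

/-- the ring `Kf ∩ V_P` -/
def OP (k t f : ℕ) (P : Ideal ZZ) [P.IsPrime] : Subring Om := (Kf k t f).toSubring ⊓ (VPv P).toSubring

theorem mem_OP {f : ℕ} {P : Ideal ZZ} [P.IsPrime] {x : Om} :
    x ∈ OP k t f P ↔ x ∈ Kf k t f ∧ VP P x := Iff.rfl

theorem up_not3 {P : Ideal ZZ} [hP : P.IsPrime] (h3 : MP P 3) {n : ℕ} (hn : ¬ 3 ∣ n) :
    UP P (n : Om) := by
  refine CV_up_nat hP h3 ?_
  rw [Nat.coprime_comm, Nat.Prime.coprime_iff_not_dvd Nat.prime_three]
  exact hn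

/-- the parameters -/
theorem FH_par [SqT k t] (hB6 : S_B6) (hR1 : S_R1) (hR2 : S_R2)
    (hR5 : S_R5) (hD9 : S_D9) (hE1 : S_E1) (hE10 : S_E10) {f : ℕ} (hf : Fok f)
    {P : Ideal ZZ} [P.IsPrime] (hP : AbP k t P) :
    ∃ a s c' : Om, a ∈ OP k t f P ∧ a⁻¹ ∈ OP k t f P ∧ s ∈ OP k t f P ∧ s⁻¹ ∈ OP k t f P ∧
      kaO k t ∈ OP k t f P ∧ a ≠ 0 ∧ s ≠ 0 ∧ Par a s (kaO k t) c' ∧
      s / a / 3 = rO (pp k t) ⊤ ∧ rO (pp k t) ⊤ ∈ Kf k t f ∧
      ∀ φ ∈ GK k t, Psi φ (cnd k t f) (pp k t) → φ (kaO k t) = c' := by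
  have hpp := fb_pp (k := k) (t := t) hf
  have hT := CV_fb_top (k := k) (t := t) f
  have hm : pp k t * ⊤ = pp k t := Ideal.mul_top _
  obtain ⟨e1, -⟩ := par_s (k := k) (t := t) hB6 hR1
  obtain ⟨-, -, -, r4, -⟩ := hR1 k t (pp k t) hpp.ne
  have haK : ∀ b : Ideal (OO k t), b ≠ ⊥ → aO b ∈ Kf k t f := by
    intro b hb
    refine mem_Kf hE1 hf.pos fun τ _ h5 => ?_
    have h6 := h5.aa b hb
    rwa [Ideal.top_mul] at h6
  have haU : ∀ b : Ideal (OO k t), b ≠ ⊥ → UP P (aO b) := fun b hb =>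
    ((hR2 k t b hb P hP.1).2.2.2.2 hP).1
  have hrU : UP P (rhO (pp k t)) := ((hR2 k t (pp k t) hpp.ne P hP.1).2.2.2.1 (not_abpb hP)).1
  have hsU : UP P (aO (pp k t) + 6) := by
    rw [← e1]
    exact (haU _ hT.ne).mul hrU
  have m6 : (6 : Om) ∈ Kf k t f := by
    have := natCast_mem (Kf k t f) 6
    exact_mod_cast this
  have hsK : aO (pp k t) + 6 ∈ Kf k t f := add_mem (haK _ hpp.ne) m6
  have ha0 := DI.UP.ne_zero (haU _ hpp.ne)
  have ha1 := DI.UP.ne_zero (haU _ hT.ne)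
  have hs0 := DI.UP.ne_zero hsU
  have hrK : rO (pp k t) ⊤ ∈ Kf k t f := by
    refine mem_Kf hE1 hf.pos fun τ hτ h5 => ?_
    obtain ⟨-, h6, -⟩ := hE10 k t τ (cnd k t f) ⊤ (CV_cnd_ne hf.pos) hτ h5
    have h7 := (h6 (CV_cnd_ppb f)).1 (pp k t) ⊤ hpp.ne (fb_ppb hpp) hT.ne (fb_ppb hT)
    rwa [Ideal.top_mul, Ideal.top_mul] at h7
  have k1 : (aO (pp k t))⁻¹ ∈ Kf k t f := inv_mem (haK _ hpp.ne)
  have k2 : (aO (pp k t) + 6)⁻¹ ∈ Kf k t f := inv_mem hsK
  have k3 : kaO k t ∈ Kf k t f := inv_mem (pow_mem (haK _ hT.ne) 3)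
  refine ⟨aO (pp k t), aO (pp k t) + 6, (aO (pp k t) ^ 3)⁻¹, ⟨haK _ hpp.ne, (haU _ hpp.ne).1⟩,
    ⟨k1, (DI.UP.inv (haU _ hpp.ne)).1⟩,
    ⟨hsK, hsU.1⟩, ⟨k2, (DI.UP.inv hsU).1⟩, ⟨k3, ?_⟩, ha0, hs0, ⟨rfl, ?_, ?_⟩, ?_, hrK, ?_⟩
  · exact (DI.UP.inv ((haU _ hT.ne).pow 3)).1
  · rw [← r4, ← e1]
    unfold kaO
    field_simp
  · exact mul_inv_cancel₀ (pow_ne_zero 3 ha0)
  · obtain ⟨-, -, h1, -⟩ := hD9 k t P hP ⊤ hT.ne (fb_ppb hT)
    rw [hm] at h1
    have h2 : rO (pp k t) ⊤ * rO ⊤ (pp k t) = 1 := by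
      rw [rO_mul hR5 hpp hT hpp, rO_self hR5 hpp]
    have h3 : rO (pp k t) ⊤ * (3 * aO (pp k t)) = aO (pp k t) + 6 := by
      rw [← h1, ← mul_assoc, h2, one_mul]
    rw [← h3]
    field_simp
  · intro φ _ hφ
    have h6 := hφ.aa ⊤ hT.ne
    rw [hm] at h6
    unfold kaO
    rw [map_inv₀, map_pow, h6]

theorem cjS_eq (c : Gal(Om/ℚ)) (F : PowerSeries Om) :
    cjS c F = PowerSeries.map (c : Om →+* Om) F := by
  ext n
  rw [cjS, PowerSeries.coeff_mk, PowerSeries.coeff_map]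
  rfl

theorem map_deriv (c : Gal(Om/ℚ)) (F : PowerSeries Om) :
    PowerSeries.map (c : Om →+* Om) (PowerSeries.derivative Om F) =
      PowerSeries.derivative Om (PowerSeries.map (c : Om →+* Om) F) := by
  ext n
  rw [PowerSeries.coeff_map]
  simp only [PowerSeries.coeff_derivative, PowerSeries.coeff_map, map_mul, map_add, map_natCast,
    map_one]

end FHm

open FHm

/-- **S_FH.** -/
theorem tFH (hB6 : S_B6) (hB7 : S_B7) (hB12 : S_B12) (hR1 : S_R1) (hR2 : S_R2) (hR4 : S_R4)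
    (hR5 : S_R5) (hD9 : S_D9) (hC7 : S_C7) (hE1 : S_E1) (hE3 : S_E3)
    (hE10 : S_E10) (hKf : S_Kf) (hLead : S_Lead) : S_FH := by
  intro k t _ f m R hm hR hRC P hP σ hσ c hc N0 β hβ hV hu1 h27 T W Z ψ Q1 Q2 γ hTW hZ hψ hγ hrel
    hQ2 hQ K' hK' hQ1k hQ2k vQ1 vQ2
  have hPp : P.IsPrime := hP.1.1
  have hf := hm.toFok
  obtain ⟨kfin, -, -, hKn, -, -, -, hK8, hK9, -, hK11⟩ := hKf k t f hf
  obtain ⟨hcc, -⟩ := hK11 c hc
  obtain ⟨φ, hφ, hFro⟩ := hK9 P hP
  have hpp := fb_pp (k := k) (t := t) hf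
  have hpsi : Psi φ (cnd k t f) (pp k t) :=
    (hE3 k t P φ hφ hFro (cnd k t f) (CV_cnd_ne hf.pos)).1 hP (((aO6 k t).2.2.1 _ _).1 hpp.cop)
  obtain ⟨a, s, c', ha, hai, hs, hsi, hc1, ha0, hs0, hpar, her, hrK, hgal⟩ :=
    FH_par (k := k) (t := t) hB6 hR1 hR2 hR5 hD9 hE1 hE10 hf hP
  have hφc := hgal φ hφ hpsi
  have m3 : (3 : Om) ∈ Kf k t f := by
    have := natCast_mem (Kf k t f) 3
    exact_mod_cast this
  have hOdV : Od (VPv P).toSubring := fun n hn => (DI.UP.inv (up_not3 hP.2.1 hn)).1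
  have hOd : Od (OP k t f P) := by
    intro n hn
    have h9 : ((n : Om))⁻¹ ∈ Kf k t f := inv_mem (natCast_mem _ n)
    exact ⟨h9, hOdV n hn⟩
  have hFr : ∀ a ∈ OP k t f P, ∃ b ∈ OP k t f P, (φ : Om →+* Om) a = a ^ 3 + 3 * b := by
    rintro a ⟨ha1, ha2⟩
    have h1 : φ a - a ^ 3 ∈ Kf k t f := sub_mem (hKn φ hφ a ha1) (pow_mem ha1 3)
    have h9 : (φ a - a ^ 3) / 3 ∈ Kf k t f := div_mem h1 m3
    refine ⟨(φ a - a ^ 3) / 3, ⟨h9, ?_⟩, ?_⟩
    · exact hK8 P hP _ h1 (DI.VP.frob hFro ha2)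
    · change φ a = _
      ring
  have h2i : (2 : Om)⁻¹ ∈ OP k t f P := by
    have := hOd 2 (by norm_num)
    exact_mod_cast this
  obtain ⟨F1, F2⟩ := FS_int (O := OP k t f P) ha hai hsi h2i hc1 ha0 hs0 hpar
  have he : s / a ∈ OP k t f P := by
    rw [div_eq_mul_inv]
    exact mul_mem hs hai
  have he0 : s / a ≠ 0 := div_ne_zero hs0 ha0
  have h3e : 3 / (s / a) = 3 * a / s := by
    field_simp
  -- the series `u`
  obtain ⟨l1, l2, -, -⟩ := hLead k t f m R hm hR hRC σ hσ N0 β hβ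
  have hcu : ∀ n, PowerSeries.coeff n (uF f m R σ N0 β) = aF f m R σ N0 β n := fun n => by
    unfold uF
    rw [PowerSeries.coeff_mk]
  have hu0 : PowerSeries.constantCoeff (uF f m R σ N0 β) = 0 := by
    rw [← PowerSeries.coeff_zero_eq_constantCoeff_apply, hcu, l2]
  have hT0 : PowerSeries.constantCoeff T = 0 := by
    rw [← PowerSeries.coeff_zero_eq_constantCoeff_apply]
    exact hTW.T0
  have hW0 : PowerSeries.constantCoeff W = 0 := by
    rw [← PowerSeries.coeff_zero_eq_constantCoeff_apply]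
    exact hTW.W0
  have hT1 : PowerSeries.coeff 1 T = aF f m R σ N0 β 1 := by
    rw [hTW.T1, hcu]
  have hTne : T ≠ 0 := by
    rintro rfl
    rw [map_zero] at hT1
    exact DI.UP.ne_zero hu1 hT1.symm
  -- integrality of `T`
  have hI : In (OP k t f P) (TofS (kaO k t) (uF f m R σ N0 β)) := by
    refine honda hOd hFr hc1 he he0 (FS_const a s (kaO k t)) ?_ F2 ?_ hu0 ?_
    · rw [h3e]
      exact coeff_one_FS hs0
    · rw [h3e]
      have g1 : (φ : Om →+* Om) (kaO k t) = c' := hφc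
      rw [g1]
      exact iso hs0 ha0 hpar
    · intro n
      refine ⟨?_, ?_⟩
      · have hIK : In (Kf k t f).toSubring (uF f m R σ N0 β) := fun n => by
          rw [hcu]
          exact l1 n
        have hIφ : In (Kf k t f).toSubring (PowerSeries.map (φ : Om →+* Om) (uF f m R σ N0 β)) :=
          hIK.map (fun x hx => hKn φ hφ x hx)
        have hX3 : PowerSeries.constantCoeff ((PowerSeries.X : PowerSeries Om) ^ 3) = 0 := by
          rw [map_pow, PowerSeries.constantCoeff_X, zero_pow (by norm_num)]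
        have hIX : In (Kf k t f).toSubring ((PowerSeries.X : PowerSeries Om) ^ 3) := In.X.pow 3
        have hC : s / a / 3 ∈ (Kf k t f).toSubring := by
          rw [her]
          exact hrK
        exact (hIK.sub ((In.C hC).mul (hIφ.cs hIX hX3))) n
      · have h5 := uF_honda hC7 hR5 hD9 hB12 hE1 hE3 hE10 hKf hm hR hRC hP hσ hφ hFro hβ hV n
          (N0 := N0)
        rw [her]
        exact h5
  have hTe := (ident hT0 hW0 hu0 hTne hTW.curve hTW.diff).1
  have vT : ∀ n, PowerSeries.coeff n T ∈ VPv P := by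
    intro n
    rw [hTe]
    exact (hI n).2
  -- the conjugate side
  have hcP : AbPb k t (c • P) := by
    obtain ⟨-, c0, h1, h2⟩ := hR4
    have h3 : c = c0 := by
      ext x
      apply io_inj
      rw [hc, h1]
    rw [h3]
    exact (h2 k t ⊤ top_ne_bot).2.1 P hP
  have hcinv : ∀ x : Om, c (c x) = x := by
    intro x
    have h1 := congrArg (fun g : Gal(Om/ℚ) => g x) hcc
    exact h1
  have hvp : ∀ x : Om, VP (c • P) x → VP P (c x) := by
    intro x hx
    have h1 : VP (c • P) (c (c x)) := by rwa [hcinv]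
    exact (DI.VP.smul c).1 h1
  have hac := ac_unit hB6 hB7 hR1 hR2 hP hc
  set h : PowerSeries Om := PowerSeries.map (c : Om →+* Om) (uF f m R σ N0 β) with hh
  have hch : ∀ n, PowerSeries.coeff n h = c (aF f m R σ N0 β n) := by
    intro n
    rw [hh, PowerSeries.coeff_map, hcu]
    rfl
  have h27' : InM (VPv P).toSubring 27 h := by
    intro n
    refine ⟨c (aF f m R σ N0 β n / 27), hvp _ (h27 _ hcP n), ?_⟩
    rw [hch, map_div₀, map_ofNat]
    ring
  have hh0 : PowerSeries.constantCoeff h = 0 := by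
    rw [← PowerSeries.coeff_zero_eq_constantCoeff_apply, hch, l2, map_zero]
  have hhne : h ≠ 0 := by
    intro h1
    have h2 := hch 1
    rw [h1, map_zero] at h2
    exact DI.UP.ne_zero hu1 ((map_eq_zero c).1 h2.symm)
  have ha3 : c (aO (⊤ : Ideal (OO k t))) ≠ 0 := by
    intro h1
    have h2 := DI.UP.ne_zero hac
    rw [h1, zero_div] at h2
    exact h2 rfl
  obtain ⟨θ, vθ, hθ⟩ := small hOdV (a := c (aO (⊤ : Ideal (OO k t))))
    (v := c (aO (⊤ : Ideal (OO k t))) / 3) (c := c (kaO k t))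
    (T := PowerSeries.map (c : Om →+* Om) T) (W := PowerSeries.map (c : Om →+* Om) W) (h := h)
    (by
      have e : c (aO (⊤ : Ideal (OO k t))) = 3 * (c (aO (⊤ : Ideal (OO k t))) / 3) := by ring
      rw [e]
      exact DI.VP.mul hP.2.1.vp hac.1)
    ha3 (by ring) (DI.UP.inv hac).1
    (by
      unfold kaO
      rw [map_inv₀, map_pow]
      exact mul_inv_cancel₀ (pow_ne_zero 3 ha3))
    (by
      rw [← PowerSeries.coeff_zero_eq_constantCoeff_apply, PowerSeries.coeff_map,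
        PowerSeries.coeff_zero_eq_constantCoeff_apply, hT0, map_zero])
    (by
      rw [← PowerSeries.coeff_zero_eq_constantCoeff_apply, PowerSeries.coeff_map,
        PowerSeries.coeff_zero_eq_constantCoeff_apply, hW0, map_zero])
    hh0
    (by
      intro h1
      have h2 := congrArg (PowerSeries.coeff 1) h1
      rw [PowerSeries.coeff_map, hT1, map_zero] at h2
      exact DI.UP.ne_zero hu1 ((map_eq_zero c).1 h2))
    (by
      have h1 := congrArg (PowerSeries.map (c : Om →+* Om)) hTW.curve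
      simp only [map_add, map_mul, map_pow, PowerSeries.map_C] at h1
      exact h1)
    (by
      have h1 := congrArg (PowerSeries.map (c : Om →+* Om)) hTW.diff
      simp only [map_add, map_sub, map_mul, map_ofNat, PowerSeries.map_C, map_deriv] at h1
      exact h1)
    h27'
  -- the field of coefficients
  let K1 : IntermediateField ℚ Om := K' ⊔ (Kf k t f).map (c : Om →ₐ[ℚ] Om)
  have : FiniteDimensional ℚ K1 := inferInstance
  have hK'1 : K' ≤ K1 := le_sup_left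
  have hhK : ∀ n, PowerSeries.coeff n h ∈ K1 := by
    intro n
    rw [hch]
    have h1 : (Kf k t f).map (c : Om →ₐ[ℚ] Om) ≤ K1 := le_sup_right
    exact h1 ⟨_, l1 n, rfl⟩
  have h3V : (3 : Om)⁻¹ ∉ VPv P := by
    intro h1
    have h3 : VP P (3 : Om)⁻¹ := h1
    have h4 := DI.MP.mul_left h3 hP.2.1
    rw [inv_mul_cancel₀ (three_ne_zero)] at h4
    exact DI.MP.one_not h4
  obtain ⟨ϖ, hϖ⟩ := disV Om (VPv P) K1 3 (by norm_num) (by exact_mod_cast h3V)
  have hQ1 : Q1 ≠ 0 := by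
    rw [← hQ]
    exact mul_ne_zero hQ2 hψ
  have hT1ne : PowerSeries.coeff 1 T ≠ 0 := by
    rw [hT1]
    exact DI.UP.ne_zero hu1
  have hT1i : (PowerSeries.coeff 1 T)⁻¹ ∈ VPv P := by
    rw [hT1]
    exact (DI.UP.inv hu1).1
  have iQ1 : In K1.toSubring Q1 := fun n => hK'1 (hQ1k n)
  have iQ2 : In K1.toSubring Q2 := fun n => hK'1 (hQ2k n)
  have ih : In K1.toSubring h := hhK
  have wQ1 : In (VPv P).toSubring Q1 := vQ1
  have wQ2 : In (VPv P).toSubring Q2 := vQ2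
  have wh : In (VPv P).toSubring h := by
    intro n
    obtain ⟨x, hx, e⟩ := h27' n
    rw [e]
    refine mul_mem ?_ hx
    have := natCast_mem (VPv P).toSubring 27
    exact_mod_cast this
  have w0 : In (VPv P).toSubring (0 : PowerSeries Om) := In.zero
  rcases hZ with hZ | hZ
  · rw [cjS_eq] at hZ
    refine con (V := VPv P) (S := K1.toSubfield) hϖ h3V (c := kaO k t) (γ := γ) hc1.2 hγ vT hT0 hW0
      hT1ne hT1i hTW.curve (E := Q1 * h) (F := PowerSeries.X ^ 2 * Q2) (θ := θ) (θ' := 0)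
      (mul_ne_zero hQ1 hhne) (mul_ne_zero (pow_ne_zero 2 PowerSeries.X_ne_zero) hQ2)
      (iQ1.mul ih) ((In.X.pow 2).mul iQ2) (wQ1.mul wh) ((In.X.pow 2).mul wQ2) vθ w0 ?_
    rw [hZ, hθ] at hrel
    rw [← hQ]
    linear_combination Q2 ^ 3 * hrel
  · rw [cjS_eq] at hZ
    have hZne : Z ≠ 0 := by
      rintro rfl
      rw [zero_mul] at hZ
      exact pow_ne_zero 6 PowerSeries.X_ne_zero hZ.symm
    have h5 : ψ ^ 3 * W = PowerSeries.C γ * (h ^ 3 * (1 + 3 * θ)) := by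
      rw [← hZ, hθ] at hrel
      refine mul_right_cancel₀ hZne ?_
      linear_combination hrel
    refine con (V := VPv P) (S := K1.toSubfield) hϖ h3V (c := kaO k t) (γ := γ) hc1.2 hγ vT hT0 hW0
      hT1ne hT1i hTW.curve (E := Q1) (F := Q2 * h) (θ := 0) (θ' := θ)
      hQ1 (mul_ne_zero hQ2 hhne) iQ1 (iQ2.mul ih) wQ1 (wQ2.mul wh) w0 vθ ?_
    rw [← hQ]
    linear_combination Q2 ^ 3 * h5

end Pool.Agent.DT
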