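import Pool.Agent.Lib.DT.IfaceF
import Pool.Agent.Lib.DT.CV.Bas
import Pool.Agent.Lib.DT.O.AllA

/-!
# Theorem DT, part F: the coefficients `cM` (homogeneity, integrality for `n` prime to `3`)
-/

set_option autoImplicit false

open scoped Pointwise

noncomputable section

namespace Pool.Agent.DT.FHm

open Pool.Agent.MuZ Pool.Agent.FW NumberField
open Pool.Agent.DI (io ofC io_inj exists_io io_ofC ofC_io VP MP UP TP ex)

variable {k t : ℕ}

theorem NI_mul [SqT k t] (a b : Ideal (OO k t)) : NI (a * b) = NI a * NI b := (aO2 k t).2.2.2.2.1 a b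

theorem NI_ne [SqT k t] {a : Ideal (OO k t)} (h : a ≠ ⊥) : NI a ≠ 0 := fun h1 =>
  h (((aO2 k t).2.2.2.2.2.1 a).1 h1)

theorem NI_cop [SqT k t] {a : Ideal (OO k t)} {N : ℕ} (h : PrI a (sN k t N)) : (NI a).Coprime N :=
  ((aO6 k t).2.2.2.2.1 N a).1 h

theorem one_lam (b : Ideal (OO k t)) : (1 : ℂ) ∈ Lam b := fun v _ => ⟨v, mul_one _⟩

theorem toC_lam [SqT k t] (b : Ideal (OO k t)) (u : OO k t) : toC u ∈ Lam b := by
  have := lam_mul u (one_lam b)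
  rwa [mul_one] at this

theorem fm_cop [SqT k t] {f : ℕ} {m : Ideal (OO k t)} (h : FM f m) : (NI m).Coprime 3 :=
  Nat.Coprime.coprime_dvd_right (Dvd.intro _ rfl) (NI_cop h.prm)

/-- an element of `O` which is not in `𝔭` is a unit at the primes above `𝔭` -/
theorem pp_unit [SqT k t] {P : Ideal ZZ} (hP : AbP k t P) {u : OO k t} (hu : ¬ (3 : ℤ) ∣ u.re) :
    UP P (toO u) := by
  have hPp : P.IsPrime := hP.1.1
  refine ⟨toO_VP u, fun h => ?_⟩
  rw [toO_apply] at h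
  have h1 := DI.MP.sub h (DI.MP.mul_left (DI.VP.int u.im) hP.2.2)
  rw [add_sub_cancel_right] at h1
  have hc : IsCoprime u.re 3 := by
    have h3 : Prime (3 : ℤ) := Int.prime_three
    exact ((Prime.coprime_iff_not_dvd h3).2 hu).symm
  exact (CV_up_cop hPp hP.2.1 hc).2 h1

theorem lam_cop [SqT k t] {b : Ideal (OO k t)} {z : ℂ} {n : ℕ} (hn : n.Coprime 3)
    (h1 : (n : ℂ) * z ∈ Lam b) (h2 : 3 * z ∈ Lam b) : z ∈ Lam b := by
  obtain ⟨x, y, hxy⟩ := Nat.isCoprime_iff_coprime.2 hn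
  have h3 := lam_add (lam_mul (x : OO k t) h1) (lam_mul (y : OO k t) h2)
  rw [toC_int, toC_int] at h3
  have e : (x : ℂ) * ((n : ℂ) * z) + (y : ℂ) * (3 * z) = z := by
    have h4 : ((x * (n : ℤ) + y * ((3 : ℕ) : ℤ) : ℤ) : ℂ) = 1 := by rw [hxy]; norm_num
    push_cast at h4
    linear_combination z * h4
  rwa [e] at h3

/-- `z ∈ Lam (a b)`: `N(a) z ∈ Lam b` -/
theorem lam_NI [SqT k t] {a b : Ideal (OO k t)} {z : ℂ} (h : z ∈ Lam (a * b)) :
    (NI a : ℂ) * z ∈ Lam b := by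
  have h1 := lam_prod.1 h _ (CV_NI_mem aO3 a)
  rwa [toC_nat] at h1

theorem wI_pp : wI k t ∈ pp k t := Ideal.subset_span (by simp)

theorem fv0 [SqT k t] {f : ℕ} (hf : 0 < f) : 3 * (f : ℂ) * v0 k t f = toC (⟨3, f⟩ : OO k t) := by
  have hf' : (f : ℂ) ≠ 0 := by exact_mod_cast hf.ne'
  unfold v0 S0
  rw [toC_apply]
  push_cast
  field_simp
  ring

/-- `3 f v` is in `Lam b'` if `v - v₀` is -/
theorem fv_lam [SqT k t] {f : ℕ} (hf : 0 < f) {b : Ideal (OO k t)} {v : ℂ} (h : v - v0 k t f ∈ Lam b) :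
    3 * (f : ℂ) * v ∈ Lam b := by
  have h7 := lam_add (lam_nat (3 * f) h) (toC_lam b (⟨3, f⟩ : OO k t))
  rw [← fv0 hf] at h7
  have e : ((3 * f : ℕ) : ℂ) * (v - v0 k t f) + 3 * (f : ℂ) * v0 k t f = 3 * (f : ℂ) * v := by
    push_cast
    ring
  rwa [e] at h7

/-- the elements of `vN f (m b) n` -/
theorem vN_one [SqT k t] (hC7 : S_C7) {f : ℕ} {m b : Ideal (OO k t)} (hm : FM f m) (hb : FB f b)
    {n : ℕ} {v : ℂ} (hv : v ∈ vN f (m * b) n) : v ≠ 0 ∧ ∃ u : OO k t, u ≠ 0 ∧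
      toC u = NI (m * b) * (3 * f * v) ∧ Nm u = 3 * (NI (m * b) * n) ∧
      v⁻¹ = io (3 * (f : Om) * NI (m * b) / toO u) ∧ (n : ℂ) * v⁻¹ = io ((f : Om) * toO (cjO u)) := by
  obtain ⟨-, h1, h2, -⟩ := hC7 k t f m b hm hb
  obtain ⟨h3, h4⟩ := (h1 n v).1 hv
  have hf := hm.pos
  have hf0 : (f : ℂ) ≠ 0 := by exact_mod_cast hf.ne'
  have hN0 : (NI (m * b) : ℂ) ≠ 0 := by
    exact_mod_cast NI_ne (mul_ne_zero hm.ne hb.ne)
  have hv0 : v ≠ 0 := by
    rintro rfl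
    have h5 : n = 0 := by
      rw [norm_zero] at h4
      have : (n : ℝ) = 0 := by rw [← h4]; ring
      exact_mod_cast this
    rw [h5, h2] at hv
    exact absurd hv (Finset.notMem_empty _)
  have h6 := fv_lam hf h3
  obtain ⟨u, hu⟩ := h6 _ (CV_NI_mem aO3 (m * b))
  rw [toC_nat] at hu
  have hu0 : u ≠ 0 := by
    rintro rfl
    rw [toC_zero] at hu
    exact mul_ne_zero hN0 (mul_ne_zero (mul_ne_zero three_ne_zero hf0) hv0) hu
  have hNm : Nm u = 3 * (NI (m * b) * n) := by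
    have h8 : ((Nm u : ℤ) : ℝ) = 3 * (NI (m * b) * n) := by
      rw [Nm_norm, ← hu, norm_mul, norm_mul, norm_mul, ← h4]
      rw [Complex.norm_natCast, Complex.norm_natCast, Complex.norm_ofNat]
      ring
    exact_mod_cast h8
  refine ⟨hv0, u, hu0, hu.symm, hNm, ?_, ?_⟩
  · rw [map_div₀, map_mul, map_mul, map_natCast, map_natCast, map_ofNat, io_toO, ← hu]
    field_simp
  · rw [map_mul, map_natCast, io_toO]
    have h9 := toC_Nm u
    rw [hNm, ← hu] at h9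
    push_cast at h9
    have h10 : 3 * (NI (m * b) : ℂ) * (n * v⁻¹) = 3 * (NI (m * b) : ℂ) * (f * toC (cjO u)) := by
      have e : 3 * (NI (m * b) : ℂ) * (n * v⁻¹) = 3 * (NI (m * b) * n) * v⁻¹ := by ring
      rw [e, h9]
      field_simp
    exact mul_left_cancel₀ (mul_ne_zero three_ne_zero hN0) h10

theorem ofC_inv [SqT k t] (hC7 : S_C7) {f : ℕ} {m b : Ideal (OO k t)} (hm : FM f m) (hb : FB f b)
    {n : ℕ} {v : ℂ} (hv : v ∈ vN f (m * b) n) : io (ofC v⁻¹) = v⁻¹ ∧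
      ∀ τ ∈ GK k t, τ (ofC v⁻¹) = ofC v⁻¹ := by
  obtain ⟨-, u, -, -, -, h, -⟩ := vN_one hC7 hm hb hv
  rw [h, ofC_io]
  refine ⟨rfl, fun τ hτ => ?_⟩
  rw [map_div₀, map_mul, map_mul, map_natCast, map_natCast, map_ofNat, GK_toO hτ]

open Classical in
/-- the coefficient as an element of `Om` -/
theorem ofC_cM [SqT k t] (hC7 : S_C7) {f : ℕ} {m b : Ideal (OO k t)} (hm : FM f m) (hb : FB f b)
    (n : ℕ) : ofC (cM f m b n) = ∑ v ∈ vN f (m * b) n,
      (if v - v0 k t f ∈ Lam b then (1 - NI m : Om) else 1) * ofC v⁻¹ ∧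
    io (ofC (cM f m b n)) = cM f m b n := by
  have h : cM f m b n = io (∑ v ∈ vN f (m * b) n,
      (if v - v0 k t f ∈ Lam b then (1 - NI m : Om) else 1) * ofC v⁻¹) := by
    unfold cM
    rw [map_sum]
    refine Finset.sum_congr rfl fun v hv => ?_
    rw [map_mul, (ofC_inv hC7 hm hb hv).1]
    congr 1
    split_ifs
    · rw [map_sub, map_one, map_natCast]
    · rw [map_one]
  rw [h, ofC_io]
  exact ⟨rfl, rfl⟩

/-- the coefficients are in `K` -/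
theorem GK_cM [SqT k t] (hC7 : S_C7) {f : ℕ} {m b : Ideal (OO k t)} (hm : FM f m) (hb : FB f b)
    (n : ℕ) {τ : Gal(Om/ℚ)} (hτ : τ ∈ GK k t) : τ (ofC (cM f m b n)) = ofC (cM f m b n) := by
  classical
  rw [(ofC_cM hC7 hm hb n).1, map_sum]
  refine Finset.sum_congr rfl fun v hv => ?_
  rw [map_mul, (ofC_inv hC7 hm hb hv).2 τ hτ]
  congr 1
  split_ifs
  · rw [map_sub, map_one, map_natCast]
  · rw [map_one]

/-- homogeneity -/
theorem cM_sp [SqT k t] (hC7 : S_C7) {f : ℕ} {m b : Ideal (OO k t)} (hm : FM f m) (hb : FB f b)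
    {α : OO k t} (hα : α ≠ 0) (h1 : α - 1 ∈ cnd k t f) (hαb : FB f (sp α * b)) (n : ℕ) :
    cM f m (sp α * b) n = toC α * cM f m b n := by
  classical
  have hf := hm.pos
  have hα0 : toC α ≠ 0 := toC_ne hα
  obtain ⟨c, hc⟩ := CV_v0_cnd aO4 hf h1
  rw [toC_sub, toC_one] at hc
  obtain ⟨-, hv1, -⟩ := hC7 k t f m b hm hb
  obtain ⟨-, hv2, -⟩ := hC7 k t f m (sp α * b) hm hαb
  have key : ∀ (v : ℂ) (b' : Ideal (OO k t)), v - v0 k t f ∈ Lam (sp α * b') ↔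
      toC α * v - v0 k t f ∈ Lam b' := by
    intro v b'
    rw [lam_sp]
    have e : toC α * v - v0 k t f = toC c + toC α * (v - v0 k t f) := by
      rw [← hc]
      ring
    rw [e, lam_add_left_iff (toC_lam b' c)]
  have hmem : ∀ v : ℂ, v ∈ vN f (m * (sp α * b)) n ↔ toC α * v ∈ vN f (m * b) n := by
    intro v
    have e1 : m * (sp α * b) = sp α * (m * b) := by ring
    rw [hv1, hv2, e1, key, norm_mul, NI_mul (sp α)]
    have e2 : ((NI (sp α) : ℕ) : ℝ) = ‖toC α‖ ^ 2 := by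
      rw [← Nm_norm, ← (aO2 k t).2.2.2.1 α]
      push_cast
      rfl
    push_cast
    rw [e2]
    constructor
    · rintro ⟨h3, h4⟩
      exact ⟨h3, by rw [← h4]; ring⟩
    · rintro ⟨h3, h4⟩
      exact ⟨h3, by rw [← h4]; ring⟩
  unfold cM
  rw [Finset.mul_sum]
  refine Finset.sum_nbij' (fun v => toC α * v) (fun v => (toC α)⁻¹ * v) ?_ ?_ ?_ ?_ ?_
  · intro v hv
    exact (hmem v).1 hv
  · intro v hv
    rw [hmem, mul_inv_cancel_left₀ hα0]
    exact hv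
  · intro v _
    exact inv_mul_cancel_left₀ hα0 v
  · intro v _
    exact mul_inv_cancel_left₀ hα0 v
  · intro v _
    rw [if_congr (key v b) rfl rfl, mul_inv]
    field_simp

/-- the number `fr(b')/fr(b)` -/
theorem rO_eq [SqT k t] (hR5 : S_R5) {f : ℕ} {a b : Ideal (OO k t)} (ha : FB f a) (hb : FB f b) :
    fr a ≠ 0 ∧ io (rO a b) = fr b / fr a := by
  obtain ⟨h1, -, h2, -⟩ := hR5 k t ⊤ a b top_ne_bot ha.ne hb.ne (CV_top _)
    ((aO6 k t).2.2.2.1 a _ _ (CV_cnd_ppb f) ha.cop) ((aO6 k t).2.2.2.1 b _ _ (CV_cnd_ppb f) hb.cop)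
  exact ⟨h1, h2⟩

theorem fb_ppb [SqT k t] {f : ℕ} {b : Ideal (OO k t)} (hb : FB f b) : PrI b (ppb k t) :=
  (aO6 k t).2.2.2.1 b _ _ (CV_cnd_ppb f) hb.cop

/-- the class function -/
theorem cM_ray [SqT k t] (hC7 : S_C7) (hB12 : S_B12) (hR5 : S_R5) {f : ℕ} {m b b' : Ideal (OO k t)}
    (hm : FM f m) (hb : FB f b) (hb' : FB f b') (h : Ray (cnd k t f) b b') (n : ℕ) :
    rO b ⊤ * ofC (cM f m b n) = rO b' ⊤ * ofC (cM f m b' n) := by
  obtain ⟨α, α', -, -, hc, hc', hd, he⟩ := h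
  obtain ⟨β, hαβ⟩ : ∃ β : OO k t, α * β - 1 ∈ cnd k t f := by
    have h1 : (1 : OO k t) ∈ sp α ⊔ cnd k t f := by
      have h2 : sp α ⊔ cnd k t f = ⊤ := hc
      rw [h2]
      trivial
    obtain ⟨x, hx, y, hy, hxy⟩ := Submodule.mem_sup.1 h1
    obtain ⟨β, rfl⟩ := Ideal.mem_span_singleton'.1 hx
    refine ⟨β, ?_⟩
    have e : α * β - 1 = -y := by linear_combination hxy
    rw [e]
    exact (cnd k t f).neg_mem hy
  have hα'β : α' * β - 1 ∈ cnd k t f := by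
    have e : α' * β - 1 = (α * β - 1) - (α - α') * β := by ring
    rw [e]
    exact (cnd k t f).sub_mem hαβ ((cnd k t f).mul_mem_right β hd)
  have hnot1 : (1 : OO k t) ∉ cnd k t f := by
    intro h1
    have h2 : (1 : OO k t) ∈ ppb k t := CV_cnd_ppb f h1
    obtain ⟨-, -, -, -, hp, -⟩ := aO4 k t
    exact hp.ne_top ((Ideal.eq_top_iff_one _).2 h2)
  have hne : ∀ γ : OO k t, γ - 1 ∈ cnd k t f → γ ≠ 0 := by
    rintro γ hγ rfl
    rw [zero_sub] at hγ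
    exact hnot1 ((cnd k t f).neg_mem_iff.1 hγ)
  have hsp : sp (α * β) * b = sp (α' * β) * b' := by
    have e1 : sp (α * β) = sp α * sp β := by
      rw [Ideal.span_singleton_mul_span_singleton]
    have e2 : sp (α' * β) = sp α' * sp β := by
      rw [Ideal.span_singleton_mul_span_singleton]
    rw [e1, e2, mul_right_comm, he, mul_right_comm]
  have hFB : ∀ γ : OO k t, γ - 1 ∈ cnd k t f → ∀ b : Ideal (OO k t), FB f b → FB f (sp γ * b) := by
    intro γ hγ b hb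
    refine CV_fb_mul aO6 ⟨CV_sp_ne (hne γ hγ), ?_⟩ hb
    refine (aO6 k t).2.2.2.2.2.2.1 _ 1 γ ?_ ?_
    · rw [← Ideal.neg_mem_iff]
      have e : -(1 - γ) = γ - 1 := by ring
      rwa [e]
    · unfold PrI
      rw [show sp (1 : OO k t) = ⊤ from Ideal.span_singleton_one]
      exact top_sup_eq _
  have hfrm : ∀ γ : OO k t, γ - 1 ∈ cnd k t f → ∀ b : Ideal (OO k t), FB f b →
      io (rO b ⊤ * ofC (cM f m b n)) =
        fr (⊤ : Ideal (OO k t)) / fr (sp γ * b) * cM f m (sp γ * b) n := by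
    intro γ hγ b hb
    obtain ⟨hfr0, hr⟩ := rO_eq hR5 hb (CV_fb_top (k := k) (t := t) f)
    obtain ⟨-, -, -, -, -, h5, -⟩ := hB12 k t b hb.ne (fb_ppb hb)
    rw [map_mul, hr, (ofC_cM hC7 hm hb n).2, cM_sp hC7 hm hb (hne γ hγ) hγ (hFB γ hγ b hb),
      h5 γ (hne γ hγ) (CV_cnd_ppb f hγ)]
    have h6 := toC_ne (hne γ hγ)
    field_simp
  apply io_inj
  rw [hfrm _ hαβ b hb, hfrm _ hα'β b' hb', hsp]

/-- `𝔭` is prime to the conductor -/
theorem fb_pp [SqT k t] {f : ℕ} (hf : Fok f) : FB (k := k) (t := t) f (pp k t) := by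
  obtain ⟨-, -, -, -, -, h1, -, h2, h3, -⟩ := aO4 k t
  refine ⟨h3, ((aO6 k t).2.1 _ _ _).2 ⟨?_, h2⟩⟩
  rw [(aO6 k t).2.2.2.2.1, h1]
  exact hf.cop.symm

theorem mem_Kf [SqT k t] (hE1 : S_E1) {f : ℕ} (hf0 : 0 < f) {x : Om}
    (h : ∀ τ ∈ GK k t, Psi τ (cnd k t f) (⊤ : Ideal (OO k t)) → τ x = x) : x ∈ Kf k t f := by
  intro τ hτ a ha h1
  exact h τ hτ ((hE1 k t (cnd k t f) (CV_cnd_ne hf0)).2.2.1 τ a ⊤ ha h1)

/-- the coefficients with index prime to `3` are integral -/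
theorem cM_cop [SqT k t] (hC7 : S_C7) {P : Ideal ZZ} (hP : AbP k t P) {f : ℕ} {m b : Ideal (OO k t)}
    (hm : FM f m) (hb : FB f b) {n : ℕ} (hn : n.Coprime 3) : VP P (ofC (cM f m b n)) := by
  classical
  have hPp : P.IsPrime := hP.1.1
  rw [(ofC_cM hC7 hm hb n).1]
  refine DI.VP.sum _ _ fun v hv => ?_
  obtain ⟨-, u, -, -, -, -, he⟩ := vN_one hC7 hm hb hv
  have hn0 : n ≠ 0 := by
    rintro rfl
    rw [Nat.coprime_zero_left] at hn
    omega
  have hn1 : (n : ℂ) ≠ 0 := by exact_mod_cast hn0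
  have hU := CV_up_nat hPp hP.2.1 hn
  refine DI.VP.mul ?_ ?_
  · split_ifs
    · exact DI.VP.sub DI.VP.one (DI.VP.nat _)
    · exact DI.VP.one
  · have h1 : v⁻¹ = io ((n : Om)⁻¹ * ((f : Om) * toO (cjO u))) := by
      rw [map_mul, ← he, map_inv₀, map_natCast, inv_mul_cancel_left₀ hn1]
    rw [h1, ofC_io]
    exact DI.VP.mul (DI.UP.inv hU).1 (DI.VP.mul (DI.VP.nat _) (toO_VP _))

end Pool.Agent.DT.FHm
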