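import Pool.Agent.Lib.DT.FH.UF

/-!
# Theorem DT, part F: `c(Al(1))/3` is a unit at the primes above `𝔭`; the parameters of the isogeny `𝔭`
-/

set_option autoImplicit false

open scoped Pointwise

noncomputable section

namespace Pool.Agent.DT.FHm

open Pool.Agent.MuZ Pool.Agent.FW NumberField
open Pool.Agent.DI (io ofC io_inj exists_io io_ofC ofC_io VP MP UP TP ex)

variable {k t : ℕ}

theorem not_abpb [SqT k t] {P : Ideal ZZ} (hP : AbP k t P) : ¬ AbPb k t P := by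
  intro h
  have hPp : P.IsPrime := hP.1.1
  have h1 := h.2.2.add hP.2.2
  rw [sub_add_cancel] at h1
  exact DI.MP.one_not h1

theorem cjI_top [SqT k t] : cjI (⊤ : Ideal (OO k t)) = ⊤ := by
  rw [eq_top_iff]
  intro v _
  rw [(aO3 k t).1]
  trivial

/-- the numbers `a'`, `s = a' + 6` -/
theorem par_s [SqT k t] (hB6 : S_B6) (hR1 : S_R1) :
    aO (⊤ : Ideal (OO k t)) * rhO (pp k t) = aO (pp k t) + 6 ∧
      dlO (⊤ : Ideal (OO k t)) * rhO (pp k t) = aO (pp k t) - 3 := by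
  obtain ⟨-, -, h3, -, h5, -⟩ := hB6 k t ⊤ top_ne_bot
  obtain ⟨a1, -, a3, -⟩ := hR1 k t ⊤ top_ne_bot
  obtain ⟨b1, b2, -, -⟩ := hR1 k t (pp k t) (fun h => (aO4 k t).2.2.2.2.2.2.2.2.1 h)
  rw [Ideal.mul_top] at h3 h5
  constructor
  · apply io_inj
    rw [map_mul, a1, b2, h3, map_add, b1, map_ofNat]
  · apply io_inj
    rw [map_mul, a3, b2, h5, map_sub, b1, map_ofNat]

theorem ac_unit [SqT k t] (hB6 : S_B6) (hB7 : S_B7) (hR1 : S_R1) (hR2 : S_R2) {P : Ideal ZZ}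
    (hP : AbP k t P) {c : Gal(Om/ℚ)} (hc : IsCj c) : UP P (c (aO (⊤ : Ideal (OO k t))) / 3) := by
  have hPp : P.IsPrime := hP.1.1
  have hpp0 : pp k t ≠ ⊥ := (aO4 k t).2.2.2.2.2.2.2.2.1
  obtain ⟨-, -, h1, -, h2, -, h3⟩ := hB7 k t ⊤ top_ne_bot
  rw [Ideal.mul_top] at h2
  rw [cjI_top] at h3
  obtain ⟨a1, a2, a3, -, -, -, a7⟩ := hR1 k t ⊤ top_ne_bot
  obtain ⟨b1, b2, -, -⟩ := hR1 k t (pp k t) hpp0
  obtain ⟨-, e2⟩ := par_s (k := k) (t := t) hB6 hR1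
  obtain ⟨-, -, -, u1, -⟩ := hR2 k t ⊤ top_ne_bot P hP.1
  obtain ⟨-, -, -, u2, -⟩ := hR2 k t (pp k t) hpp0 P hP.1
  have hud := (u1 (not_abpb hP)).2
  have hur := (u2 (not_abpb hP)).1
  have hU : UP P (aO (pp k t) - 3) := by
    rw [← e2]
    exact hud.mul hur
  -- the formula
  have key : (c (aO (⊤ : Ideal (OO k t))) ^ 3 - 27) * (aO (pp k t) - 3) ^ 4 =
      729 * (aO (⊤ : Ideal (OO k t)) ^ 3 - 27) := by
    apply io_inj
    rw [map_mul, map_sub, map_pow, hc, a1, map_pow, map_sub, b1, map_mul, map_sub, map_pow, a1]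
    simp only [map_ofNat]
    have h4 : (starRingEnd ℂ) (AC (⊤ : Ideal (OO k t)) ^ 3 - 27) =
        (starRingEnd ℂ) (AC (⊤ : Ideal (OO k t))) ^ 3 - 27 := by
      rw [map_sub, map_pow, map_ofNat]
    rw [h4] at h3
    have h5 : (AC (pp k t) - 3) ^ 4 = 729 * kpC (⊤ : Ideal (OO k t)) ^ 6 := by
      linear_combination ((AC (pp k t) - 3) ^ 2 - 27 * kpC (⊤ : Ideal (OO k t)) ^ 3) * h2
    rw [h5]
    linear_combination 729 * h3
  have h6 : (c (aO (⊤ : Ideal (OO k t))) / 3) ^ 3 =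
      1 + 27 * (dlO (⊤ : Ideal (OO k t)) ^ 3 * ((aO (pp k t) - 3) ^ 4)⁻¹) := by
    have h7 : (aO (pp k t) - 3) ^ 4 ≠ 0 := pow_ne_zero 4 (DI.UP.ne_zero hU)
    have h8 : c (aO (⊤ : Ideal (OO k t))) ^ 3 - 27 =
        729 * (aO (⊤ : Ideal (OO k t)) ^ 3 - 27) * ((aO (pp k t) - 3) ^ 4)⁻¹ := by
      rw [← key, mul_inv_cancel_right₀ h7]
    rw [a7, div_pow]
    linear_combination (1 / 27) * h8
  refine DI.UP.of_pow (n := 3) (by norm_num) ?_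
  rw [h6]
  refine DI.UP.congr DI.UP.one ?_
  rw [add_sub_cancel_left]
  have e : (27 : Om) * (dlO (⊤ : Ideal (OO k t)) ^ 3 * ((aO (pp k t) - 3) ^ 4)⁻¹) =
      3 * (9 * (dlO (⊤ : Ideal (OO k t)) ^ 3 * ((aO (pp k t) - 3) ^ 4)⁻¹)) := by ring
  rw [e]
  refine DI.MP.mul_right hP.2.1 (DI.VP.mul ?_ (DI.VP.mul (hud.pow 3).1 (DI.UP.inv (hU.pow 4)).1))
  have := DI.VP.nat (P := P) 9
  exact_mod_cast this

end Pool.Agent.DT.FHm
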