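import Pool.Agent.Lib.DT.FH.Co

/-!
# Theorem DT, part F: the coefficients `cM`: the prime `𝔭`, integrality
-/

set_option autoImplicit false

open scoped Pointwise

noncomputable section

namespace Pool.Agent.DT.FHm

open Pool.Agent.MuZ Pool.Agent.FW NumberField
open Pool.Agent.DI (io ofC io_inj exists_io io_ofC ofC_io VP MP UP TP ex)

variable {k t : ℕ}

theorem rO_mul [SqT k t] (hR5 : S_R5) {f : ℕ} {a b c : Ideal (OO k t)}
    (ha : FB f a) (hb : FB f b) (hc : FB f c) : rO a b * rO b c = rO a c := by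
  apply io_inj
  rw [map_mul, (rO_eq hR5 ha hb).2, (rO_eq hR5 hb hc).2, (rO_eq hR5 ha hc).2]
  have h1 := (rO_eq hR5 hb hc).1
  have h2 := (rO_eq hR5 ha hb).1
  field_simp

theorem rO_self [SqT k t] (hR5 : S_R5) {f : ℕ} {a : Ideal (OO k t)} (ha : FB f a) : rO a a = 1 := by
  apply io_inj
  rw [(rO_eq hR5 ha ha).2, map_one, div_self (rO_eq hR5 ha ha).1]

/-- `fr(1)/fr(b)` is a unit for `b` prime to `3` -/
theorem rO_unit [SqT k t] (hR5 : S_R5) (hD9 : S_D9) {P : Ideal ZZ} (hP : AbP k t P) {f : ℕ}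
    {b : Ideal (OO k t)} (hb : FB f b) (hb3 : PrI b (sN k t 3)) : UP P (rO b ⊤) := by
  have hPp : P.IsPrime := hP.1.1
  have hT := CV_fb_top (k := k) (t := t) f
  obtain ⟨h1, -⟩ := hD9 k t P hP ⊤ hT.ne (fb_ppb hT)
  have h2 : UP P (rO ⊤ b) := by
    have h3 := h1 b hb.ne hb3
    rw [Ideal.mul_top] at h3
    exact DI.UP.congr (CV_up_nat hPp hP.2.1 (NI_cop hb3)) (CV_tp_mp hPp hP.2.1 h3)
  have h3 : rO b ⊤ = (rO ⊤ b)⁻¹ := eq_inv_of_mul_eq_one_left (by
    rw [rO_mul hR5 hb hT hb, rO_self hR5 hb])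
  rw [h3]
  exact DI.UP.inv h2

/-- `3 fr(1)/fr(𝔭 b)` is integral for `b` prime to `3` -/
theorem rO_pp [SqT k t] (hR5 : S_R5) (hD9 : S_D9) {P : Ideal ZZ} (hP : AbP k t P) {f : ℕ}
    (hf : Fok f) {b : Ideal (OO k t)} (hb : FB f b) (hb3 : PrI b (sN k t 3)) :
    VP P (rO (pp k t * b) ⊤ * 3) := by
  have hPp : P.IsPrime := hP.1.1
  have hT := CV_fb_top (k := k) (t := t) f
  obtain ⟨-, h1, -⟩ := hD9 k t P hP b hb.ne (fb_ppb hb)
  have h2 := CV_tp_one_up hPp hP.2.1 h1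
  have h3 := rO_unit hR5 hD9 hP hb hb3
  rw [← rO_mul hR5 (CV_fb_mul aO6 (fb_pp hf) hb) hb hT]
  have e : rO (pp k t * b) b * rO b ⊤ * 3 = 3 * rO (pp k t * b) b * rO b ⊤ := by ring
  rw [e]
  exact DI.VP.mul h2.1 h3.1

theorem t_mod [h : SqT k t] : ∃ s : ℤ, (t : ℤ) = 3 * s + 1 := by
  rcases h.out with ⟨h1, -⟩ | ⟨h1, -⟩
  · exact ⟨0, by rw [h1]; norm_num⟩
  · exact ⟨1, by rw [h1]; norm_num⟩

/-- the remaining terms -/
theorem vN_rest [SqT k t] (hC7 : S_C7) {f : ℕ} {m b : Ideal (OO k t)} (hm : FM f m) (hb : FB f b)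
    (hb3 : PrI b (sN k t 3)) {n : ℕ} {v : ℂ} (hv : v ∈ vN f (m * (pp k t * b)) n)
    (hnot : v - v0 k t f ∉ Lam (m * b)) :
    ∃ u : OO k t, ¬ (3 : ℤ) ∣ u.re ∧ v⁻¹ = io (3 * ((f : Om) * NI (m * b)) / toO u) := by
  have hpb := CV_fb_mul aO6 (fb_pp (k := k) (t := t) hm.toFok) hb
  have hf := hm.pos
  obtain ⟨hv0, -⟩ := vN_one hC7 hm hpb hv
  obtain ⟨-, h1, -⟩ := hC7 k t f m (pp k t * b) hm hpb
  obtain ⟨h3, -⟩ := (h1 n v).1 hv
  have hf0 : (f : ℂ) ≠ 0 := by exact_mod_cast hf.ne'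
  have hN0 : (NI (m * b) : ℂ) ≠ 0 := by
    exact_mod_cast NI_ne (mul_ne_zero hm.ne hb.ne)
  have e1 : m * (pp k t * b) = pp k t * (m * b) := by ring
  rw [e1] at h3
  have h3x : 3 * (v - v0 k t f) ∈ Lam (m * b) := by
    have := lam_prod.1 h3 3 CV_three_pp
    rwa [toC_three] at this
  obtain ⟨y, hy⟩ := h3 _ (Ideal.mul_mem_mul CV_three_pp (CV_NI_mem aO3 (m * b)))
  obtain ⟨c, hc⟩ := h3 _ (Ideal.mul_mem_mul wI_pp (CV_NI_mem aO3 (m * b)))
  rw [toC_mul, toC_three, toC_nat] at hy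
  rw [toC_mul, toC_nat] at hc
  have hwy : wI k t * y = 3 * c := by
    apply toC_inj
    rw [toC_mul, toC_mul, toC_three, ← hy, ← hc]
    ring
  set u : OO k t := (f : OO k t) * y + (NI (m * b) : OO k t) * ⟨3, f⟩ with hudef
  have hu : toC u = NI (m * b) * (3 * f * v) := by
    rw [hudef, toC_add, toC_mul, toC_mul, toC_nat, toC_nat, ← hy, ← fv0 hf]
    ring
  have hu0 : toC u ≠ 0 := by
    rw [hu]
    exact mul_ne_zero hN0 (mul_ne_zero (mul_ne_zero three_ne_zero hf0) hv0)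
  refine ⟨u, ?_, ?_⟩
  · intro hdvd
    apply hnot
    have h5 := congrArg QuadraticAlgebra.im hwy
    have h6 : (wI k t * y).im = y.re + t * y.im := by
      rw [im_mul]
      simp [wI]
    have h8 : (3 : OO k t).re = 3 := by
      have := re_nat (k := k) (t := t) 3
      exact_mod_cast this
    have h9 : (3 : OO k t).im = 0 := by
      have := im_nat (k := k) (t := t) 3
      exact_mod_cast this
    have h7 : ((3 : OO k t) * c).im = 3 * c.im := by
      rw [im_mul, h8, h9]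
      ring
    rw [h6, h7] at h5
    have hre : u.re = f * y.re + 3 * NI (m * b) := by
      rw [hudef, QuadraticAlgebra.re_add, re_mul, re_mul, re_nat, re_nat, im_nat, im_nat]
      ring
    have hyre : (3 : ℤ) ∣ y.re := by
      rw [hre] at hdvd
      have h10 : (3 : ℤ) ∣ f * y.re := (Int.dvd_add_left (Dvd.intro _ rfl)).1 hdvd
      have h11 : IsCoprime (3 : ℤ) (f : ℤ) := by
        exact_mod_cast Nat.isCoprime_iff_coprime.2 hm.cop.symm
      exact h11.dvd_of_dvd_mul_left h10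
    obtain ⟨a, ha⟩ := hyre
    obtain ⟨s, hs⟩ := t_mod (k := k) (t := t)
    obtain ⟨d, hd⟩ : ∃ d : ℤ, y.im = 3 * d := ⟨c.im - a - s * y.im, by
      linear_combination h5 - ha - y.im * hs⟩
    have h12 : toC y = 3 * toC (⟨a, d⟩ : OO k t) := by
      rw [toC_apply, toC_apply, ha, hd]
      push_cast
      ring
    have h13 : (NI (m * b) : ℂ) * (v - v0 k t f) ∈ Lam (m * b) := by
      have e : (NI (m * b) : ℂ) * (v - v0 k t f) = toC (⟨a, d⟩ : OO k t) := by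
        have h10 : 3 * ((NI (m * b) : ℂ) * (v - v0 k t f)) = 3 * toC (⟨a, d⟩ : OO k t) := by
          rw [← h12, ← hy]
          ring
        exact mul_left_cancel₀ three_ne_zero h10
      rw [e]
      exact toC_lam _ _
    refine lam_cop ?_ h13 h3x
    rw [NI_mul]
    exact Nat.Coprime.mul_left (fm_cop hm) (NI_cop hb3)
  · rw [map_div₀, map_mul, map_mul, map_natCast, map_natCast, map_ofNat, io_toO]
    rw [eq_div_iff hu0, hu]
    field_simp

/-- `c(3 n)` for `𝔭 b` and `c(n)` for `b` -/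
theorem cM_pp [SqT k t] (hC7 : S_C7) (hR5 : S_R5) (hD9 : S_D9) {P : Ideal ZZ} (hP : AbP k t P) {f : ℕ}
    {m b : Ideal (OO k t)} (hm : FM f m) (hb : FB f b) (hb3 : PrI b (sN k t 3)) (n : ℕ) :
    VP P (rO (pp k t * b) ⊤ * (ofC (cM f m (pp k t * b) (3 * n)) - ofC (cM f m b n))) := by
  classical
  have hPp : P.IsPrime := hP.1.1
  have hpb := CV_fb_mul aO6 (fb_pp (k := k) (t := t) hm.toFok) hb
  obtain ⟨-, h1, -⟩ := hC7 k t f m (pp k t * b) hm hpb
  obtain ⟨-, h2, -⟩ := hC7 k t f m b hm hb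
  have e1 : m * (pp k t * b) = pp k t * (m * b) := by ring
  have hN3 : NI (m * (pp k t * b)) = 3 * NI (m * b) := by
    rw [e1, NI_mul, (aO4 k t).2.2.2.2.2.1]
  have hfil : (vN f (m * (pp k t * b)) (3 * n)).filter (fun v : ℂ => v - v0 k t f ∈ Lam (m * b)) =
      vN f (m * b) n := by
    ext v
    rw [Finset.mem_filter, h1, h2, hN3]
    constructor
    · rintro ⟨⟨-, h3⟩, h4⟩
      refine ⟨h4, ?_⟩
      push_cast at h3
      linarith
    · rintro ⟨h3, h4⟩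
      refine ⟨⟨?_, ?_⟩, h3⟩
      · rw [e1]
        exact lam_mono h3
      · push_cast
        linarith
  have hif : ∀ v ∈ vN f (m * b) n, (v - v0 k t f ∈ Lam (pp k t * b) ↔ v - v0 k t f ∈ Lam b) := by
    intro v hv
    obtain ⟨h3, -⟩ := (h2 n v).1 hv
    constructor
    · intro h4
      refine lam_cop (fm_cop hm) (lam_NI h3) ?_
      have h5 := lam_prod.1 h4 3 CV_three_pp
      rwa [toC_three] at h5
    · exact lam_mono
  have hsplit := Finset.sum_filter_add_sum_filter_not (vN f (m * (pp k t * b)) (3 * n))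
    (fun v : ℂ => v - v0 k t f ∈ Lam (m * b))
    (fun v : ℂ => (if v - v0 k t f ∈ Lam (pp k t * b) then (1 - NI m : Om) else 1) * ofC v⁻¹)
  rw [hfil] at hsplit
  have hsame : ∑ v ∈ vN f (m * b) n,
      (if v - v0 k t f ∈ Lam (pp k t * b) then (1 - NI m : Om) else 1) * ofC v⁻¹ =
      ∑ v ∈ vN f (m * b) n, (if v - v0 k t f ∈ Lam b then (1 - NI m : Om) else 1) * ofC v⁻¹ := by
    refine Finset.sum_congr rfl fun v hv => ?_
    rw [if_congr (hif v hv) rfl rfl]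
  rw [(ofC_cM hC7 hm hpb (3 * n)).1, (ofC_cM hC7 hm hb n).1, ← hsplit, hsame, add_sub_cancel_left,
    Finset.mul_sum]
  refine DI.VP.sum _ _ fun v hv => ?_
  obtain ⟨hv1, hv2⟩ := Finset.mem_filter.1 hv
  obtain ⟨u, hu, he⟩ := vN_rest hC7 hm hb hb3 hv1 hv2
  have h3 := pp_unit hP hu
  rw [he, ofC_io]
  have e : rO (pp k t * b) ⊤ * ((if v - v0 k t f ∈ Lam (pp k t * b) then (1 - NI m : Om) else 1) *
      (3 * ((f : Om) * NI (m * b)) / toO u)) =
      (rO (pp k t * b) ⊤ * 3) * (if v - v0 k t f ∈ Lam (pp k t * b) then (1 - NI m : Om) else 1) *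
      (((f : Om) * NI (m * b)) * (toO u)⁻¹) := by
    rw [div_eq_mul_inv]
    ring
  rw [e]
  refine DI.VP.mul (DI.VP.mul (rO_pp hR5 hD9 hP hm.toFok hb hb3) ?_)
    (DI.VP.mul (DI.VP.mul (DI.VP.nat _) (DI.VP.nat _)) (DI.UP.inv h3).1)
  split_ifs
  · exact DI.VP.sub DI.VP.one (DI.VP.nat _)
  · exact DI.VP.one

end Pool.Agent.DT.FHm
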