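import Pool.Agent.Lib.DT.FH.Co2
import Pool.Agent.Lib.DI.F4.Bas

/-!
# Theorem DT, part F: the hypothesis of Honda's argument for the series `uF`
-/

set_option autoImplicit false

open scoped Pointwise

noncomputable section

namespace Pool.Agent.DT.FHm

open Pool.Agent.MuZ Pool.Agent.FW NumberField
open Pool.Agent.DI (io ofC io_inj exists_io io_ofC ofC_io VP MP UP TP ex)

variable {k t : ℕ}

/-- the coefficients of `f(X ^ 3)` -/
private theorem UF_cs (f : PowerSeries Om) (n : ℕ) :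
    PowerSeries.coeff n (DI.F4.cs f (PowerSeries.X ^ 3)) =
      ∑ d ∈ Finset.range (n + 1), PowerSeries.coeff d f * (if n = 3 * d then 1 else 0) := by
  have hX : PowerSeries.constantCoeff ((PowerSeries.X : PowerSeries Om) ^ 3) = 0 := by
    rw [map_pow, PowerSeries.constantCoeff_X, zero_pow (by norm_num)]
  rw [DI.F4.coeff_cs hX]
  refine Finset.sum_congr rfl fun d _ => ?_
  rw [← pow_mul, PowerSeries.coeff_X_pow]

theorem UF_mul (f : PowerSeries Om) (m : ℕ) :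
    PowerSeries.coeff (3 * m) (DI.F4.cs f (PowerSeries.X ^ 3)) = PowerSeries.coeff m f := by
  rw [UF_cs, Finset.sum_eq_single m]
  · rw [if_pos rfl, mul_one]
  · intro d _ hd
    rw [if_neg (by omega), mul_zero]
  · intro h
    exact absurd (Finset.mem_range.2 (by omega)) h

theorem UF_not (f : PowerSeries Om) (n : ℕ) (hn : ∀ m, n ≠ 3 * m) :
    PowerSeries.coeff n (DI.F4.cs f (PowerSeries.X ^ 3)) = 0 := by
  rw [UF_cs]
  refine Finset.sum_eq_zero fun d _ => ?_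
  rw [if_neg (hn d), mul_zero]

/-- **(H5)** -/
theorem uF_honda [SqT k t] (hC7 : S_C7) (hR5 : S_R5) (hD9 : S_D9) (hB12 : S_B12)
    (hE1 : S_E1) (hE3 : S_E3) (hE10 : S_E10) (hKf : S_Kf) {f : ℕ} {m : Ideal (OO k t)}
    {R : Finset (Ideal (OO k t))} (hm : FM f m) (hR : FR f R) (hRC : IsRC (cnd k t f) R)
    {P : Ideal ZZ} (hP : AbP k t P) {σ : Ideal (OO k t) → Gal(Om/ℚ)} (hσ : IsSig k t f σ)
    {φ : Gal(Om/ℚ)} (hφ : φ ∈ GK k t) (hFr : Fro P 3 φ) {N0 : ℕ} {β : Om} (hβ : β ∈ Kf k t f)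
    (hβV : ∀ τ ∈ GK k t, VP P (τ β)) (n : ℕ) :
    VP P (PowerSeries.coeff n (uF f m R σ N0 β - PowerSeries.C (rO (pp k t) ⊤) *
      DI.F4.cs (PowerSeries.map (φ : Om →+* Om) (uF f m R σ N0 β)) (PowerSeries.X ^ 3))) := by
  classical
  have hPp : P.IsPrime := hP.1.1
  have hf := hm.toFok
  have hn0 := CV_cnd_ne (k := k) (t := t) hm.pos
  have hpp := fb_pp (k := k) (t := t) hf
  have hT := CV_fb_top (k := k) (t := t) f
  have hRb : ∀ b ∈ R, FB f b := fun b hb => (CV_fb_fr aO6 hR hb).1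
  have hRb3 : ∀ b ∈ R, PrI b (sN k t 3) := fun b hb => (CV_fb_fr aO6 hR hb).2
  rw [map_sub, PowerSeries.coeff_C_mul]
  by_cases hn : ∃ m, n = 3 * m
  · obtain ⟨n', rfl⟩ := hn
    rw [UF_mul, PowerSeries.coeff_map]
    unfold uF
    rw [PowerSeries.coeff_mk, PowerSeries.coeff_mk]
    -- the permutation of the classes
    have hex : ∀ b ∈ R, ∃ b' ∈ R, Ray (cnd k t f) (pp k t * b) b' := fun b hb =>
      hRC.ex _ (CV_fb_mul aO6 hpp (hRb b hb)).ne (CV_fb_mul aO6 hpp (hRb b hb)).cop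
    choose! ρ hρ1 hρ2 using hex
    obtain ⟨-, o2, o3, -, o5, -⟩ := aO7 k t (cnd k t f) hn0
    have hinj : Set.InjOn ρ R := by
      intro b hb b2 hb2 he
      have h1 := o3 _ _ _ (hρ2 b hb) (by
        rw [he]
        exact o2 _ _ (hρ2 b2 hb2))
      rw [mul_comm (pp k t), mul_comm (pp k t)] at h1
      exact hRC.uni b hb b2 hb2 (o5 _ _ _ hpp.ne hpp.cop h1)
    have hre : ∀ F : Ideal (OO k t) → Om, ∑ b ∈ R, F b = ∑ b ∈ R, F (ρ b) := by
      intro F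
      refine (Finset.sum_nbij ρ (fun b hb => hρ1 b hb) hinj ?_ fun _ _ => rfl).symm
      exact Finset.surjOn_of_injOn_of_card_le ρ (fun b hb => hρ1 b hb) hinj le_rfl
    -- the two sums
    have hA : aF f m R σ N0 β (3 * n') = N0 * ∑ b ∈ R, σ (ρ b) β *
        (rO (pp k t * b) ⊤ * ofC (cM f m (pp k t * b) (3 * n'))) := by
      unfold aF
      rw [hre]
      congr 1
      refine Finset.sum_congr rfl fun b hb => ?_
      rw [mul_assoc, cM_ray hC7 hB12 hR5 hm (CV_fb_mul aO6 hpp (hRb b hb)) (hRb _ (hρ1 b hb))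
        (hρ2 b hb)]
    have hpsiφ : Psi φ (cnd k t f) (pp k t) :=
      (hE3 k t P φ hφ hFr (cnd k t f) hn0).1 hP (((aO6 k t).2.2.1 _ _).1 hpp.cop)
    obtain ⟨-, -, -, e4, -⟩ := hE1 k t (cnd k t f) hn0
    obtain ⟨-, -, -, -, -, hK6, -⟩ := hKf k t f hf
    obtain ⟨-, e10, -⟩ := hE10 k t φ (cnd k t f) (pp k t) hn0 hφ hpsiφ
    obtain ⟨e10, -⟩ := e10 (CV_cnd_ppb f)
    have hB : rO (pp k t) ⊤ * (φ : Om →+* Om) (aF f m R σ N0 β n') = N0 * ∑ b ∈ R, σ (ρ b) β *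
        (rO (pp k t * b) ⊤ * ofC (cM f m b n')) := by
      change rO (pp k t) ⊤ * φ (aF f m R σ N0 β n') = _
      unfold aF
      rw [map_mul, map_natCast, map_sum, mul_left_comm, Finset.mul_sum]
      congr 1
      refine Finset.sum_congr rfl fun b hb => ?_
      have h1 : φ (σ b β) = σ (ρ b) β := by
        have h2 := (hK6 (φ * σ b) (mul_mem hφ (hσ.mem b (hRb b hb))) (σ (ρ b))
          (hσ.mem _ (hRb _ (hρ1 b hb))) (pp k t * b) (ρ b)
          (e4 _ _ _ _ hpsiφ (hσ.psi b (hRb b hb))) (hσ.psi _ (hRb _ (hρ1 b hb)))).2 (hρ2 b hb) β hβ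
        rwa [AlgEquiv.mul_apply] at h2
      have h3 : φ (rO b ⊤) = rO (pp k t * b) (pp k t) := by
        have h4 := e10 b ⊤ (hRb b hb).ne (fb_ppb (hRb b hb)) hT.ne (fb_ppb hT)
        rwa [Ideal.mul_top] at h4
      rw [map_mul, map_mul, h1, h3, GK_cM hC7 hm (hRb b hb) n' hφ,
        ← rO_mul hR5 (CV_fb_mul aO6 hpp (hRb b hb)) hpp hT]
      ring
    rw [hA, hB, ← mul_sub, ← Finset.sum_sub_distrib]
    refine DI.VP.mul (DI.VP.nat _) (DI.VP.sum _ _ fun b hb => ?_)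
    have e : σ (ρ b) β * (rO (pp k t * b) ⊤ * ofC (cM f m (pp k t * b) (3 * n'))) -
        σ (ρ b) β * (rO (pp k t * b) ⊤ * ofC (cM f m b n')) =
        σ (ρ b) β * (rO (pp k t * b) ⊤ * (ofC (cM f m (pp k t * b) (3 * n')) -
          ofC (cM f m b n'))) := by ring
    rw [e]
    exact DI.VP.mul (hβV _ (hσ.mem _ (hRb _ (hρ1 b hb))))
      (cM_pp hC7 hR5 hD9 hP hm (hRb b hb) (hRb3 b hb) n')
  · rw [UF_not _ _ (fun m hm => hn ⟨m, hm⟩), mul_zero, sub_zero]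
    unfold uF
    rw [PowerSeries.coeff_mk]
    unfold aF
    refine DI.VP.mul (DI.VP.nat _) (DI.VP.sum _ _ fun b hb => ?_)
    refine DI.VP.mul (DI.VP.mul (hβV _ (hσ.mem b (hRb b hb)))
      (rO_unit hR5 hD9 hP (hRb b hb) (hRb3 b hb)).1) ?_
    refine cM_cop hC7 hP hm (hRb b hb) ?_
    rw [Nat.coprime_comm, Nat.Prime.coprime_iff_not_dvd Nat.prime_three]
    rintro ⟨c, hc⟩
    exact hn ⟨c, hc⟩

end Pool.Agent.DT.FHm
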